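import Pool.Agent.Results.MP_b41181_pr.ExactOrder

open MeasureTheory ProbabilityTheory Filter Topology Pool.Agent.Lib.MP_b41181_pr
open scoped NNReal ENNReal

universe u

/-- The earlier hand-in `Exponent`, deduced from the statement of `ExactOrder`. -/
theorem Pool.Agent.Retired.MP_b41181_pr.Exponent.result (lam a : ℝ) (hlam : 0 < lam)
    (ha : 0 < a) :
    (∃ (Ω : Type) (_ : MeasurableSpace Ω) (P : Measure Ω) (X : ℝ≥0 → Ω → ℝ) (x : ℕ → Ω → ℝ)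
      (Y : ℕ → ℝ≥0 → Ω → ℝ), IsTrapModel lam X x Y P) ∧
    ∃ c : ℝ, 0 < c ∧
      ∀ (Ω : Type u) [MeasurableSpace Ω] (P : Measure Ω) (X : ℝ≥0 → Ω → ℝ) (x : ℕ → Ω → ℝ)
        (Y : ℕ → ℝ≥0 → Ω → ℝ), IsTrapModel lam X x Y P →
          alphaStar P X (hitTime a X x Y) = 1 / 3 ∧
          Tendsto (fun t : ℝ≥0 => ProbabilityTheory.cond P {ω | (t : ℝ≥0∞) < hitTime a X x Y ω}
            {ω | c * ((t : ℝ) * Real.log t) ^ (1 / 3 : ℝ) ≤ maxDisp X t ω}) atTop (𝓝 1) := by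
  obtain ⟨c, C, hc, -, H⟩ := Pool.Agent.Results.MP_b41181_pr.ExactOrder.result.{u}
  obtain ⟨H1, H2⟩ := H lam a hlam ha
  refine ⟨H1, c * lam⁻¹ ^ (1 / 3 : ℝ), by positivity, fun Ω _ P X x Y h => ?_⟩
  obtain ⟨H3, H4⟩ := H2 Ω P X x Y h
  refine ⟨H3, tendsto_of_tendsto_of_tendsto_of_le_of_le' H4 tendsto_const_nhds ?_
    (Eventually.of_forall fun t => prob_le_one)⟩
  filter_upwards [eventually_ge_atTop 1] with t ht
  have hl : 0 ≤ Real.log t := Real.log_nonneg ht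
  refine measure_mono fun ω hω => le_trans (le_of_eq ?_) hω.1
  rw [div_eq_mul_inv _ lam, Real.mul_rpow (x := (t : ℝ) * Real.log t) (by positivity)
    (by positivity)]
  ring
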